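import Pool.Agent.Helper672.Pinus.Main

/-!
# A finitely based variety whose relation `≡_S` has one class above the continuum

For the variety of the starting result the relation `≡_S` is determined on `ℵ₀` and on all
cardinals above the continuum: all cardinals above the continuum are equivalent, and none of them
is equivalent to `ℵ₀`.
-/

namespace Pool.Agent.Results.MP_f89ea0_lc.ContinuumThreshold

open Pinus Cardinal TopologicalSpace

universe u

instance secondCountableBB : SecondCountableTopology BB :=
  Topology.IsInducing.secondCountableTopology (f := (Subtype.val : BB → (ℤ × ℤ → Bool)))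
    Topology.IsInducing.subtypeVal

theorem card_opens : #(Opens BB) ≤ 𝔠 := by
  have hb := isBasis_countableBasis BB
  let f : Opens BB → Set (countableBasis BB) := fun U => {s | (s : Set BB) ⊆ (U : Set BB)}
  have hf : Function.Injective f := by
    intro U V h
    have key : ∀ A B : Opens BB, f A = f B → (A : Set BB) ⊆ (B : Set BB) := by
      intro A B hAB x hx
      obtain ⟨s, hs, hxs, hsA⟩ := hb.exists_subset_of_mem_open hx A.isOpen
      have h1 : (⟨s, hs⟩ : countableBasis BB) ∈ f A := hsA
      rw [hAB] at h1
      exact h1 hxs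
    exact Opens.ext (Set.Subset.antisymm (key U V h) (key V U h.symm))
  calc #(Opens BB) ≤ #(Set (countableBasis BB)) := mk_le_of_injective hf
    _ = 2 ^ #(countableBasis BB) := mk_set
    _ ≤ 2 ^ ℵ₀ := power_le_power_left two_ne_zero (countable_countableBasis BB).le_aleph0
    _ = 𝔠 := two_power_aleph0

theorem thetaU_le : thetaU.{u} ≤ 𝔠 := by
  have h : theta ≤ 𝔠 := max_le aleph0_le_continuum card_opens
  have h2 := Cardinal.lift_le.{u}.2 h
  rw [lift_continuum] at h2
  exact h2

/-- There is a finitely based variety whose relation `≡_S` on the infinite cardinals satisfies: all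
cardinals above the continuum are equivalent, and none of them is equivalent to `ℵ₀`. In particular
the relation is none of `∇`, `≡_{2p}` and `≡_2`. -/
theorem result : ∃ V : FBVariety,
    (∀ κ μ : InfCard.{u}, 𝔠 < κ.1 → 𝔠 < μ.1 → equivS.{u} V κ μ) ∧
    (∀ μ : InfCard.{u}, 𝔠 < μ.1 → ¬ equivS.{u} V ⟨ℵ₀, le_rfl⟩ μ) ∧
    equivS.{u} V ≠ nabla ∧ equivS.{u} V ≠ equiv2p ∧ equivS.{u} V ≠ equiv2 :=
  ⟨pinVar, fun _ _ hκ hμ => equivS_large (thetaU_le.trans_lt hκ) (thetaU_le.trans_lt hμ),
    fun _ hμ => not_equivS_aleph0 (thetaU_le.trans_lt hμ), main⟩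

end Pool.Agent.Results.MP_f89ea0_lc.ContinuumThreshold
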